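import Pool.Agent.Lib.MP_8daebb_an.AE.Defs

/-! The choice of a centre at which the exceptional set is small at all scales. -/

set_option linter.unusedSectionVars false

open MeasureTheory Metric Filter Topology Set
open scoped RealInnerProductSpace ENNReal ContDiff

namespace Pool.Agent.Lib.MP_8daebb_an.AE

open GM

variable {H : Type*} [NormedAddCommGroup H] [InnerProductSpace ℝ H] [FiniteDimensional ℝ H]
  [MeasurableSpace H] [BorelSpace H] {m : ℕ}

theorem maximal_le {μ : Measure H} {B : Set H} {x₀ : H} {r M e ε : ℝ} (hr : 0 < r) (he : 0 < e)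
    (hM : 0 ≤ M) (hε : 0 ≤ ε)
    (hub : ∀ p ∈ ball x₀ (r / 4), ∀ s, 0 < s → s ≤ r / 2 →
      μ (ball p s) ≤ ENNReal.ofReal (M * s ^ m))
    (hbad : μ (B ∩ ball x₀ r) ≤ ENNReal.ofReal ε) :
    μ {y | y ∈ ball x₀ (r / 4) ∧ ∃ s, 0 < s ∧ s ≤ r / 12 ∧
      ENNReal.ofReal (e * s ^ m) < μ (B ∩ ball y s)} ≤ ENNReal.ofReal (M * 6 ^ m * ε / e) := by
  classical
  set S := {y | y ∈ ball x₀ (r / 4) ∧ ∃ s, 0 < s ∧ s ≤ r / 12 ∧
    ENNReal.ofReal (e * s ^ m) < μ (B ∩ ball y s)} with hS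
  have h : ∀ y ∈ S, ∃ s, 0 < s ∧ s ≤ r / 12 ∧ ENNReal.ofReal (e * s ^ m) < μ (B ∩ ball y s) :=
    fun y hy => hy.2
  choose! ρ h0 h1 h2 using h
  obtain ⟨u, huS, hud, hcov⟩ :=
    Vitali.exists_disjoint_subfamily_covering_enlargement_ball S (fun x => x) ρ (r / 12) h1 6
      (by norm_num)
  have huc : u.Countable :=
    hud.countable_of_isOpen (fun _ _ => isOpen_ball) fun a ha => nonempty_ball.2 (h0 a (huS ha))
  have : Countable u := huc.to_subtype
  have hsub : S ⊆ ⋃ b : u, ball (b : H) (6 * ρ b) := fun a ha => by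
    obtain ⟨b, hb, hab⟩ := hcov a ha
    exact mem_iUnion.2 ⟨⟨b, hb⟩, hab (mem_ball_self (h0 a ha))⟩
  have hν : ∀ (y : H) (s : ℝ), μ.restrict B (ball y s) = μ (B ∩ ball y s) := fun y s => by
    rw [Measure.restrict_apply measurableSet_ball, inter_comm]
  calc μ S ≤ ∑' b : u, μ (ball (b : H) (6 * ρ b)) :=
        (measure_mono hsub).trans (measure_iUnion_le _)
    _ ≤ ∑' b : u, ENNReal.ofReal (M * 6 ^ m / e) * μ.restrict B (ball (b : H) (ρ b)) := by
        refine ENNReal.tsum_le_tsum fun b => ?_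
        have b0 := h0 b (huS b.2)
        have b1 := h1 b (huS b.2)
        refine (hub b (huS b.2).1 _ (by linarith) (by linarith)).trans ?_
        rw [hν]
        refine le_trans (le_of_eq ?_) (mul_le_mul_right (h2 b (huS b.2)).le _)
        rw [← ENNReal.ofReal_mul (by positivity), mul_pow]
        congr 1
        field_simp
    _ = ENNReal.ofReal (M * 6 ^ m / e) * μ.restrict B (⋃ b ∈ u, ball b (ρ b)) := by
        rw [ENNReal.tsum_mul_left, measure_biUnion huc hud fun _ _ => measurableSet_ball]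
    _ ≤ ENNReal.ofReal (M * 6 ^ m / e) * ENNReal.ofReal ε := by
        refine mul_le_mul_right (le_trans (measure_mono (iUnion₂_subset fun b hb => ?_))
          ((hν x₀ r).trans_le hbad)) _
        refine ball_subset_ball' ?_
        have := mem_ball.1 (huS hb).1
        linarith [h1 b (huS hb)]
    _ = ENNReal.ofReal (M * 6 ^ m * ε / e) := by
        rw [← ENNReal.ofReal_mul (by positivity)]
        congr 1
        ring

theorem ae_density_zero {μ : Measure H} {G : Set H} (hG : MeasurableSet G) {x₀ : H} {r M : ℝ}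
    (hr : 0 < r) (hM : 0 ≤ M) (hfin : μ (ball x₀ r) < ⊤)
    (hub : ∀ p ∈ ball x₀ (r / 4), ∀ s, 0 < s → s ≤ r / 2 →
      μ (ball p s) ≤ ENNReal.ofReal (M * s ^ m)) :
    ∀ᵐ y ∂μ, y ∈ ball x₀ (r / 4) → y ∈ G → ∀ η > 0, ∀ᶠ s in 𝓝[>] (0 : ℝ),
      μ (Gᶜ ∩ ball y s) ≤ ENNReal.ofReal (η * s ^ m) := by
  have : IsFiniteMeasure (μ.restrict (ball x₀ r)) := ⟨by rwa [Measure.restrict_apply_univ]⟩
  have h := Besicovitch.ae_tendsto_measure_inter_div_of_measurableSet (μ.restrict (ball x₀ r))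
    hG.compl
  rw [ae_restrict_iff' measurableSet_ball] at h
  filter_upwards [h] with y hy h1 h2 η hη
  have h3 := hy (ball_subset_ball (by linarith) h1)
  rw [indicator_of_notMem (not_not.2 h2)] at h3
  have hc : 0 < η / (M * 2 ^ m + 1) := by positivity
  filter_upwards [h3.eventually (gt_mem_nhds (ENNReal.ofReal_pos.2 hc)),
    Ioo_mem_nhdsGT (show 0 < r / 4 by linarith)] with s h4 h5
  have h6 : closedBall y s ⊆ ball x₀ r := closedBall_subset_ball' (by
    linarith [mem_ball.1 h1, h5.2])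
  have s0 := h5.1
  rw [Measure.restrict_eq_self _ (inter_subset_right.trans h6), Measure.restrict_eq_self _ h6] at h4
  have h7 : μ (closedBall y s) ≤ ENNReal.ofReal (M * (2 * s) ^ m) :=
    (measure_mono (closedBall_subset_ball (by linarith))).trans
      (hub y h1 _ (by linarith) (by linarith [h5.2]))
  have h8 : μ (Gᶜ ∩ closedBall y s) ≤
      ENNReal.ofReal (η / (M * 2 ^ m + 1)) * μ (closedBall y s) := by
    rcases eq_or_ne (μ (closedBall y s)) 0 with z | z
    · exact (measure_mono inter_subset_right).trans (z.le.trans zero_le)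
    · exact (ENNReal.div_le_iff z (h7.trans_lt ENNReal.ofReal_lt_top).ne).1 h4.le
  refine (measure_mono (inter_subset_inter_right _ ball_subset_closedBall)).trans (h8.trans
    ((mul_le_mul_right h7 _).trans ?_))
  rw [← ENNReal.ofReal_mul hc.le]
  refine ENNReal.ofReal_le_ofReal ?_
  rw [div_mul_eq_mul_div, div_le_iff₀ (by positivity), mul_pow]
  nlinarith [mul_pos hη (pow_pos s0 m)]

theorem exists_centre {μ : Measure H} {G : Set H} (hG : MeasurableSet G) {x₀ : H}
    {r a M e β ε : ℝ} (ha : 0 < a) (har : a ≤ r / 4) (he : 0 < e) (hM : 0 ≤ M) (hε : 0 ≤ ε)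
    (hfin : μ (ball x₀ r) < ⊤)
    (hub : ∀ p ∈ ball x₀ (r / 4), ∀ s, 0 < s → s ≤ r / 2 →
      μ (ball p s) ≤ ENNReal.ofReal (M * s ^ m))
    (hlow : ENNReal.ofReal β ≤ μ (ball x₀ a)) (hbad : μ (Gᶜ ∩ ball x₀ r) ≤ ENNReal.ofReal ε)
    (h : ε + M * 6 ^ m * ε / e < β) :
    ∃ y ∈ ball x₀ a, y ∈ G ∧ y ∈ μ.support ∧
      (∀ s, 0 < s → s ≤ r / 12 → μ (Gᶜ ∩ ball y s) ≤ ENNReal.ofReal (e * s ^ m)) ∧
      ∀ η > 0, ∀ᶠ s in 𝓝[>] (0 : ℝ), μ (Gᶜ ∩ ball y s) ≤ ENNReal.ofReal (η * s ^ m) := by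
  have hr : 0 < r := by linarith
  have h1 := maximal_le (B := Gᶜ) hr he hM hε hub hbad
  have h2 := (ae_density_zero hG hr hM hfin hub).and μ.support_mem_ae
  by_contra hc
  refine (hlow.trans ?_).not_gt
    ((ENNReal.ofReal_lt_ofReal_iff_of_nonneg (by positivity)).2 h)
  rw [ENNReal.ofReal_add hε (by positivity)]
  refine le_trans (measure_mono_ae ?_) ((measure_union_le _ _).trans (add_le_add hbad h1))
  filter_upwards [h2] with y hy (ha' : y ∈ ball x₀ a)
  have h3 : y ∈ ball x₀ (r / 4) := ball_subset_ball har ha'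
  by_cases hG' : y ∈ G
  · refine Or.inr ⟨h3, ?_⟩
    by_contra hn
    exact hc ⟨y, ha', hG', hy.2, fun s a b => not_lt.1 fun c => hn ⟨s, a, b, c⟩, hy.1 h3 hG'⟩
  · exact Or.inl ⟨hG', ball_subset_ball (by linarith) h3⟩

end Pool.Agent.Lib.MP_8daebb_an.AE
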