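import Pool.Agent.Lib.MP_8daebb_an.AE.Defs
import Pool.Agent.Lib.MP_8daebb_an.Mono

/-! The remainder term of the monotonicity formula. -/

set_option linter.unusedSectionVars false

open MeasureTheory Metric Filter Topology Set
open scoped RealInnerProductSpace ENNReal ContDiff

namespace Pool.Agent.Lib.MP_8daebb_an.AE

open GM

variable {H : Type*} [NormedAddCommGroup H] [InnerProductSpace ℝ H] [FiniteDimensional ℝ H]
  [MeasurableSpace H] [BorelSpace H] {m : ℕ}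

variable {U : Set H} {V : Measure (H × (H →L[ℝ] H))}

/-- The squared distance to the plane. -/
noncomputable def w_Cone (p : H) (z : H × (H →L[ℝ] H)) : ℝ := ‖(z.1 - p) - z.2 (z.1 - p)‖ ^ 2

/-- The smoothed integral of the squared distance. -/
noncomputable def J_Cone (V : Measure (H × (H →L[ℝ] H))) (p : H) (δ s : ℝ) : ℝ :=
  ∫ z, cut δ (‖z.1 - p‖ ^ 2 / s ^ 2) * w_Cone p z ∂V

lemma cont_Cone (p : H) : Continuous (w_Cone p) :=
  (((continuous_fst.sub continuous_const).sub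
    (continuous_snd.clm_apply (continuous_fst.sub continuous_const))).norm).pow 2

lemma nonneg_Cone (p : H) (z : H × (H →L[ℝ] H)) : 0 ≤ w_Cone p z := sq_nonneg _

lemma eq_Cone {P : H →L[ℝ] H} (h : IsPlane m P) (v : H) :
    ‖v - P v‖ ^ 2 = ‖v‖ ^ 2 - ⟪v, P v⟫ ∧ 0 ≤ ⟪v, P v⟫ := by
  have h1 : ‖P v‖ ^ 2 = ⟪v, P v⟫ := by
    rw [← real_inner_self_eq_norm_sq, h.1, h.2.1]
  exact ⟨by rw [norm_sub_sq_real, h1]; ring, h1 ▸ sq_nonneg _⟩

lemma le_Cone {p : H} {z : H × (H →L[ℝ] H)} (h : IsPlane m z.2) : w_Cone p z ≤ ‖z.1 - p‖ ^ 2 := by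
  have := eq_Cone h (z.1 - p)
  unfold w_Cone
  linarith [this.1, this.2]

lemma int_Cone (hV : IsStationaryVarifold m U V) {p : H} {s : ℝ} (_hU : closedBall p s ⊆ U)
    {f : H × (H →L[ℝ] H) → ℝ} (hf : Integrable f V) (h0 : ∀ z, z.1 ∉ closedBall p s → f z = 0) :
    Integrable (fun z => f z * w_Cone p z) V := by
  refine (hf.norm.mul_const (s ^ 2)).mono'
    (hf.aestronglyMeasurable.mul (cont_Cone p).aestronglyMeasurable) ?_
  filter_upwards [hV.carried] with z hz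
  by_cases hb : z.1 ∈ closedBall p s
  · rw [norm_mul, Real.norm_of_nonneg (nonneg_Cone p z)]
    refine mul_le_mul_of_nonneg_left ((le_Cone hz.2).trans ?_) (norm_nonneg _)
    rw [mem_closedBall, dist_eq_norm] at hb
    gcongr
  · rw [h0 z hb]
    simp

lemma deriv_Cone (hV : IsStationaryVarifold m U V) {x : H} {δ R s : ℝ}
    (hδ : 0 < δ) (hU : ball x R ⊆ U) (hs : 0 < s) (hsR : s < R) :
    HasDerivAt (J_Cone V x δ) (∫ z, deriv (cut δ) (‖z.1 - x‖ ^ 2 / s ^ 2) *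
      (-2 * ‖z.1 - x‖ ^ 2 / s ^ 3) * w_Cone x z ∂V) s := by
  obtain ⟨s₁, h1, h2⟩ := exists_between hsR
  have hK : closedBall x s₁ ⊆ U := (closedBall_subset_ball h2).trans hU
  have hK' : closedBall x s ⊆ U := (closedBall_subset_closedBall h1.le).trans hK
  obtain ⟨C, hC⟩ := cut_deriv_bound (δ := δ) (s₁ ^ 2 / (s / 2) ^ 2)
  have hC0 : 0 ≤ C := (abs_nonneg _).trans (hC 0 ⟨le_rfl, by positivity⟩)
  have hm : MeasurableSet (Prod.fst ⁻¹' closedBall x s₁ : Set (H × (H →L[ℝ] H))) :=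
    measurable_fst measurableSet_closedBall
  have hfin : V (Prod.fst ⁻¹' closedBall x s₁) < ⊤ := by
    have := hV.radon _ (isCompact_closedBall x s₁) hK
    rwa [Measure.fst_apply measurableSet_closedBall] at this
  refine (hasDerivAt_integral_of_dominated_loc_of_deriv_le
    (F := fun (s : ℝ) (z : H × (H →L[ℝ] H)) => cut δ (‖z.1 - x‖ ^ 2 / s ^ 2) * w_Cone x z)
    (F' := fun (s : ℝ) (z : H × (H →L[ℝ] H)) => deriv (cut δ) (‖z.1 - x‖ ^ 2 / s ^ 2) *
      (-2 * ‖z.1 - x‖ ^ 2 / s ^ 3) * w_Cone x z)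
    (bound := (Prod.fst ⁻¹' closedBall x s₁ : Set (H × (H →L[ℝ] H))).indicator
      fun _ => C * (2 * s₁ ^ 2 / (s / 2) ^ 3) * s₁ ^ 2)
    (Ioo_mem_nhds (half_lt_self hs) h1) ?_
    (int_Cone hV hK' (hV.integrable_cut hδ hs hK')
      fun z hz => cut_zero hδ (one_lt_ratio hs le_rfl hz).le) ?_ ?_
    ((integrable_indicator_iff hm).mpr (integrableOn_const hfin.ne)) ?_).2
  · exact Eventually.of_forall fun t => Continuous.aestronglyMeasurable
      (((cut_contDiff δ).continuous.comp (by fun_prop)).mul (cont_Cone x))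
  · exact Continuous.aestronglyMeasurable
      ((((cut_deriv_continuous δ).comp (by fun_prop)).mul (by fun_prop)).mul (cont_Cone x))
  · filter_upwards [hV.carried] with z hP t ht
    have ht0 : 0 < t := (half_pos hs).trans ht.1
    by_cases hz : z.1 ∈ closedBall x s₁
    · rw [Set.indicator_of_mem (by exact hz), Real.norm_eq_abs, abs_mul, abs_mul,
        abs_of_nonneg (nonneg_Cone x z)]
      have hz' : ‖z.1 - x‖ ≤ s₁ := by rwa [mem_closedBall, dist_eq_norm] at hz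
      have h3 := ht.1
      refine mul_le_mul (mul_le_mul (hC _ ⟨by positivity, by gcongr⟩) ?_ (abs_nonneg _) hC0)
        ((le_Cone hP.2).trans (by gcongr)) (nonneg_Cone x z) (by positivity)
      rw [abs_div, abs_mul, abs_of_nonneg (by positivity : 0 ≤ ‖z.1 - x‖ ^ 2),
        abs_of_pos (by positivity : 0 < t ^ 3), abs_neg, abs_two]
      gcongr
    · rw [Set.indicator_of_notMem (by exact hz), cut_deriv_zero hδ (one_lt_ratio ht0 ht.2.le hz)]
      simp
  · refine Eventually.of_forall fun z t ht => ?_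
    have ht0 : 0 < t := (half_pos hs).trans ht.1
    have h3 : HasDerivAt (fun t : ℝ => ‖z.1 - x‖ ^ 2 / t ^ 2) (-2 * ‖z.1 - x‖ ^ 2 / t ^ 3) t := by
      have := (hasDerivAt_const t (‖z.1 - x‖ ^ 2)).div (hasDerivAt_pow 2 t) (by positivity)
      refine this.congr_deriv ?_
      simp only [Nat.cast_ofNat, Nat.add_one_sub_one, pow_one]
      field_simp
      ring
    exact ((cut_hasDerivAt δ _).comp t h3).mul_const _

lemma trace_Cone {P : H →L[ℝ] H} (h : IsPlane m P) (a c : ℝ) (v : H) :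
    LinearMap.trace ℝ H ((P.comp (a • ContinuousLinearMap.id ℝ H +
      (c • innerSL ℝ v).smulRight v) : H →L[ℝ] H) : H →ₗ[ℝ] H) = m * a + c * ⟪v, P v⟫ := by
  obtain ⟨e, he, ht⟩ := h.exists_frame
  have h1 := ht (ContinuousLinearMap.id ℝ H)
  have h2 : ∀ i, ⟪e i, e i⟫ = 1 := fun i => by rw [real_inner_self_eq_norm_sq, he.1 i]; norm_num
  simp only [ContinuousLinearMap.id_apply, h2, Finset.sum_const, Finset.card_univ,
    Fintype.card_fin, nsmul_eq_mul, mul_one] at h1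
  have h3 : ((P.comp (a • ContinuousLinearMap.id ℝ H +
      (c • innerSL ℝ v).smulRight v) : H →L[ℝ] H) : H →ₗ[ℝ] H) =
      a • ((P.comp (ContinuousLinearMap.id ℝ H) : H →L[ℝ] H) : H →ₗ[ℝ] H) +
        c • LinearMap.smulRight (innerₛₗ ℝ v) (P v) := by
    ext y
    simp [smul_smul]
  rw [h3, map_add, map_smul, map_smul, h1, LinearMap.trace_smulRight]
  simp [mul_comm]

lemma exact_Cone (hV : IsStationaryVarifold m U V) {x : H} {δ R s : ℝ}
    (hδ : 0 < δ) (hU : ball x R ⊆ U) (hs : 0 < s) (hsR : s < R) :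
    s * ∫ z, deriv (cut δ) (‖z.1 - x‖ ^ 2 / s ^ 2) * (-2 * ‖z.1 - x‖ ^ 2 / s ^ 3) *
      w_Cone x z ∂V ≤ s ^ 2 * (s * ∫ z, deriv (cut δ) (‖z.1 - x‖ ^ 2 / s ^ 2) *
        (-2 * ‖z.1 - x‖ ^ 2 / s ^ 3) ∂V - m * sm V x δ s) := by
  have hK : closedBall x s ⊆ U := (closedBall_subset_ball hsR).trans hU
  let X : H → H := fun y => cut δ (‖y - x‖ ^ 2 / s ^ 2) • (y - x)
  have hn : ContDiff ℝ 1 fun y : H => ‖y - x‖ ^ 2 / s ^ 2 :=
    ((contDiff_id.sub contDiff_const).norm_sq ℝ).div_const _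
  have hX : ContDiff ℝ 1 X :=
    (((cut_contDiff δ).of_le (by norm_num)).comp hn).smul (contDiff_id.sub contDiff_const)
  have hsupp : tsupport X ⊆ closedBall x s := by
    refine closure_minimal (fun y hy => ?_) isClosed_closedBall
    by_contra hy'
    apply hy
    simp only [X, cut_zero hδ (one_lt_ratio hs le_rfl hy').le, zero_smul]
  have hc : HasCompactSupport X :=
    (isCompact_closedBall x s).of_isClosed_subset (isClosed_tsupport _) hsupp
  have h0 := hV.stationary X hX hc (hsupp.trans hK)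
  have hi0 := hV.integrable_tanDiv hX hc (hsupp.trans hK)
  have hi1 := hV.integrable_cut hδ hs hK
  have hi2 := (hV.sm_hasDerivAt hδ hU hs hsR).1
  have hi3 := int_Cone hV hK hi2 fun z hz => by
    rw [cut_deriv_zero hδ (one_lt_ratio hs le_rfl hz), zero_mul]
  have hle : ∫ z, s * (deriv (cut δ) (‖z.1 - x‖ ^ 2 / s ^ 2) * (-2 * ‖z.1 - x‖ ^ 2 / s ^ 3) *
      w_Cone x z) ∂V ≤ ∫ z, s ^ 2 * ((s * (deriv (cut δ) (‖z.1 - x‖ ^ 2 / s ^ 2) *
        (-2 * ‖z.1 - x‖ ^ 2 / s ^ 3)) - m * cut δ (‖z.1 - x‖ ^ 2 / s ^ 2)) + tanDiv X z) ∂V := by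
    refine integral_mono_ae (hi3.const_mul _)
      ((((hi2.const_mul _).sub (hi1.const_mul _)).add hi0).const_mul _) ?_
    filter_upwards [hV.carried] with z hz
    have hd1 : HasFDerivAt (fun y : H => y - x) (ContinuousLinearMap.id ℝ H) z.1 :=
      (hasFDerivAt_id z.1).sub_const x
    have hd2 := (cut_hasDerivAt δ _).comp_hasFDerivAt z.1 (hd1.norm_sq.mul_const (s ^ 2)⁻¹)
    have hd3 := hd2.smul hd1
    have hX' : X = (cut δ ∘ fun y : H => ‖y - x‖ ^ 2 * (s ^ 2)⁻¹) • fun y : H => y - x := by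
      ext y
      simp [X, div_eq_mul_inv]
    have hF : fderiv ℝ X z.1 = cut δ (‖z.1 - x‖ ^ 2 / s ^ 2) • ContinuousLinearMap.id ℝ H +
        ((deriv (cut δ) (‖z.1 - x‖ ^ 2 / s ^ 2) * (2 / s ^ 2)) • innerSL ℝ (z.1 - x)).smulRight
          (z.1 - x) := by
      rw [hX', hd3.fderiv]
      ext y
      simp only [add_apply, smul_apply,
        ContinuousLinearMap.id_apply, ContinuousLinearMap.smulRight_apply, Function.comp_apply,
        ContinuousLinearMap.comp_apply, innerSL_apply_apply, smul_eq_mul, nsmul_eq_mul,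
        div_eq_mul_inv]
      congr 2
      push_cast
      ring
    have hw : w_Cone x z = ‖z.1 - x‖ ^ 2 - ⟪z.1 - x, z.2 (z.1 - x)⟫ := (eq_Cone hz.2 _).1
    have hT : tanDiv X z = m * cut δ (‖z.1 - x‖ ^ 2 / s ^ 2) +
        deriv (cut δ) (‖z.1 - x‖ ^ 2 / s ^ 2) * (2 / s ^ 2) * (‖z.1 - x‖ ^ 2 - w_Cone x z) := by
      rw [tanDiv, hF, trace_Cone hz.2, hw, sub_sub_cancel]
    have h4 : 0 ≤ -deriv (cut δ) (‖z.1 - x‖ ^ 2 / s ^ 2) * w_Cone x z *
        (1 - ‖z.1 - x‖ ^ 2 / s ^ 2) := by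
      rcases le_or_gt (‖z.1 - x‖ ^ 2 / s ^ 2) 1 with h5 | h5
      · exact mul_nonneg (mul_nonneg (neg_nonneg.2 (cut_deriv_nonpos hδ _)) (nonneg_Cone x z))
          (sub_nonneg.2 h5)
      · rw [cut_deriv_zero hδ h5]
        simp
    simp only [hT]
    generalize deriv (cut δ) (‖z.1 - x‖ ^ 2 / s ^ 2) = D at h4 ⊢
    generalize cut δ (‖z.1 - x‖ ^ 2 / s ^ 2) = c
    generalize ‖z.1 - x‖ ^ 2 = n at h4 ⊢
    generalize w_Cone x z = w at h4 ⊢
    have e1 : s ^ 2 * ((s * (D * (-2 * n / s ^ 3)) - m * c) + (m * c + D * (2 / s ^ 2) * (n - w))) -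
        s * (D * (-2 * n / s ^ 3) * w) = 2 * (-D * w * (1 - n / s ^ 2)) := by
      field_simp
      ring
    linarith
  have hi4 : Integrable (fun z : H × (H →L[ℝ] H) => s * (deriv (cut δ) (‖z.1 - x‖ ^ 2 / s ^ 2) *
      (-2 * ‖z.1 - x‖ ^ 2 / s ^ 3)) - m * cut δ (‖z.1 - x‖ ^ 2 / s ^ 2)) V :=
    (hi2.const_mul _).sub (hi1.const_mul _)
  rw [integral_const_mul, integral_const_mul, integral_add hi4 hi0, h0, add_zero,
    integral_sub (hi2.const_mul _) (hi1.const_mul _),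
    integral_const_mul, integral_const_mul] at hle
  exact hle

lemma mono_Cone (hV : IsStationaryVarifold m U V) {x : H} {δ R b : ℝ}
    (hδ : 0 < δ) (hU : ball x R ⊆ U) (hb : b < R) :
    MonotoneOn (fun s => b ^ (m + 2) * (sm V x δ s / s ^ m) - J_Cone V x δ s) (Ioc 0 b) := by
  have hd : ∀ s ∈ Ioc 0 b, ∃ d, 0 ≤ d ∧
      HasDerivAt (fun s => b ^ (m + 2) * (sm V x δ s / s ^ m) - J_Cone V x δ s) d s := by
    intro s hs
    have hs0 := hs.1
    have hsR := hs.2.trans_lt hb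
    have h1 := (hV.sm_hasDerivAt hδ hU hs0 hsR).2
    have h2 := hV.sm_ineq hδ hU hs0 hsR
    have h3 := exact_Cone hV hδ hU hs0 hsR
    refine ⟨_, ?_, ((h1.div (hasDerivAt_pow m s) (by positivity)).const_mul _).sub
      (deriv_Cone hV hδ hU hs0 hsR)⟩
    generalize ∫ z, deriv (cut δ) (‖z.1 - x‖ ^ 2 / s ^ 2) * (-2 * ‖z.1 - x‖ ^ 2 / s ^ 3) ∂V = D
      at h2 h3 ⊢
    generalize ∫ z, deriv (cut δ) (‖z.1 - x‖ ^ 2 / s ^ 2) * (-2 * ‖z.1 - x‖ ^ 2 / s ^ 3) *
      w_Cone x z ∂V = D' at h3 ⊢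
    generalize sm V x δ s = A at h2 h3 ⊢
    have e1 : (D * s ^ m - A * (m * s ^ (m - 1))) / (s ^ m) ^ 2 = (s * D - m * A) / s ^ (m + 1) := by
      cases m with
      | zero => simp; field_simp
      | succ k =>
        simp only [Nat.add_sub_cancel]
        field_simp
        ring
    have h4 : D' ≤ s * (s * D - m * A) := le_of_mul_le_mul_left (by linarith) hs0
    have h5 : s * (s * D - m * A) = s ^ (m + 2) * ((s * D - m * A) / s ^ (m + 1)) := by
      field_simp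
      ring
    have h6 : s ^ (m + 2) ≤ b ^ (m + 2) := pow_le_pow_left₀ hs0.le hs.2 _
    have h7 := mul_le_mul_of_nonneg_right h6
      (div_nonneg (sub_nonneg.2 h2) (by positivity : 0 ≤ s ^ (m + 1)))
    rw [e1]
    linarith
  refine monotoneOn_of_deriv_nonneg (convex_Ioc 0 b) (fun s hs => ?_) (fun s hs => ?_)
    (fun s hs => ?_)
  · obtain ⟨d, -, h⟩ := hd s hs
    exact h.continuousAt.continuousWithinAt
  · obtain ⟨d, -, h⟩ := hd s (interior_subset hs)
    exact h.differentiableAt.differentiableWithinAt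
  · obtain ⟨d, h0, h⟩ := hd s (interior_subset hs)
    rwa [h.deriv]

lemma small_Cone (hV : IsStationaryVarifold m U V) {x : H} {δ s : ℝ}
    (hδ : 0 < δ) (hs : 0 < s) (hU : closedBall x s ⊆ U) : J_Cone V x δ s ≤ s ^ 2 * sm V x δ s := by
  have hi := hV.integrable_cut hδ hs hU
  unfold J_Cone sm
  rw [← integral_const_mul]
  refine integral_mono_ae (int_Cone hV hU hi fun z hz =>
    cut_zero hδ (one_lt_ratio hs le_rfl hz).le) (hi.const_mul _) ?_
  filter_upwards [hV.carried] with z hz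
  by_cases hb : z.1 ∈ closedBall x s
  · rw [mul_comm]
    refine mul_le_mul_of_nonneg_right ((le_Cone hz.2).trans ?_) (cut_nonneg _ _)
    rw [mem_closedBall, dist_eq_norm] at hb
    gcongr
  · rw [cut_zero hδ (one_lt_ratio hs le_rfl hb).le]
    simp

theorem cone_est (hV : IsStationaryVarifold m U V) (hU : IsOpen U) {p : H} {b κ Q e θ : ℝ}
    (hb : 0 < b) (hκ : 0 < κ) (hκ1 : κ < 1) (hQ : 0 ≤ Q) (hp : closedBall p b ⊆ U)
    (hθ : HasDensity m V.fst p θ) (hQθ : Q ≤ θ)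
    (hm : (V.fst (ball p b)).toReal ≤ (Q + e) * omega m * b ^ m) :
    ∫⁻ z in Prod.fst ⁻¹' ball p (κ * b), ENNReal.ofReal (‖(z.1 - p) - z.2 (z.1 - p)‖ ^ 2) ∂V ≤
      ENNReal.ofReal (b ^ (m + 2) * (omega m * (e + Q * (1 - κ ^ m)))) := by
  obtain ⟨R, hR, hRU⟩ : ∃ R, b < R ∧ ball p R ⊆ U := by
    obtain ⟨d, hd, h⟩ := (isCompact_closedBall p b).exists_thickening_subset_open hU hp
    rw [thickening_closedBall hd hb.le] at h
    exact ⟨d + b, by linarith, h⟩
  have hω := omega_pos m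
  have hδ : 0 < 1 - κ ^ 2 := by nlinarith
  have key : ∀ a ∈ Ioo 0 b, J_Cone V p (1 - κ ^ 2) b ≤
      b ^ (m + 2) * (omega m * (e + Q * (1 - κ ^ m))) + a ^ 2 * (V.fst (ball p b)).toReal := by
    intro a ha
    have ha0 := ha.1
    have hpa : closedBall p a ⊆ U := (closedBall_subset_closedBall ha.2.le).trans hp
    have h1 := mono_Cone hV hδ hRU hR ⟨ha0, ha.2.le⟩ ⟨hb, le_rfl⟩ ha.2.le
    have h2 : sm V p (1 - κ ^ 2) b / b ^ m ≤ (Q + e) * omega m :=
      (div_le_iff₀ (by positivity)).2 ((hV.sm_le hδ hb hp).trans hm)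
    have h3 : Q * omega m * κ ^ m ≤ sm V p (1 - κ ^ 2) a / a ^ m := by
      rw [le_div_iff₀ (by positivity)]
      refine le_trans ?_ ((hV.mass_ge_of_density hθ (mul_pos hκ ha0)
        ((closedBall_subset_closedBall (by nlinarith)).trans hpa) hU).trans
          (hV.le_sm hκ hκ1 ha0 hpa))
      rw [mul_assoc _ (κ ^ m), ← mul_pow]
      gcongr
    have h4 : J_Cone V p (1 - κ ^ 2) a ≤ a ^ 2 * (V.fst (ball p b)).toReal :=
      (small_Cone hV hδ ha0 hpa).trans (mul_le_mul_of_nonneg_left ((hV.sm_le hδ ha0 hpa).trans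
        (ENNReal.toReal_mono (hV.ball_lt_top hp).ne (measure_mono (ball_subset_ball ha.2.le))))
        (by positivity))
    have h5 := mul_le_mul_of_nonneg_left h2 (by positivity : 0 ≤ b ^ (m + 2))
    have h6 := mul_le_mul_of_nonneg_left h3 (by positivity : 0 ≤ b ^ (m + 2))
    simp only at h1
    linarith
  have h5 : Tendsto (fun a : ℝ => b ^ (m + 2) * (omega m * (e + Q * (1 - κ ^ m))) +
      a ^ 2 * (V.fst (ball p b)).toReal) (𝓝[>] 0) (𝓝 (b ^ (m + 2) *
        (omega m * (e + Q * (1 - κ ^ m))) + 0 ^ 2 * (V.fst (ball p b)).toReal)) :=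
    ((continuous_const.add ((continuous_pow 2).mul continuous_const)).tendsto 0).mono_left
      nhdsWithin_le_nhds
  have h6 := ge_of_tendsto h5 (by
    filter_upwards [Ioo_mem_nhdsGT hb] with a ha
    exact key a ha)
  rw [zero_pow two_ne_zero, zero_mul, add_zero] at h6
  refine le_trans ?_ (ENNReal.ofReal_le_ofReal h6)
  rw [J_Cone, ofReal_integral_eq_lintegral_ofReal (int_Cone hV hp (hV.integrable_cut hδ hb hp)
    fun z hz => cut_zero hδ (one_lt_ratio hb le_rfl hz).le)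
    (Eventually.of_forall fun z => mul_nonneg (cut_nonneg _ _) (nonneg_Cone p z))]
  refine le_trans (setLIntegral_mono' (measurable_fst measurableSet_ball) fun z hz => ?_)
    (setLIntegral_le_lintegral _ _)
  have hz' : ‖z.1 - p‖ < κ * b := by rwa [mem_preimage, mem_ball, dist_eq_norm] at hz
  rw [cut_one hδ, one_mul]
  · exact le_rfl
  · rw [sub_sub_cancel, div_le_iff₀ (by positivity), ← mul_pow]
    gcongr

end Pool.Agent.Lib.MP_8daebb_an.AE
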