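import Pool.Agent.Lib.MP_8daebb_an.AE.Defs
import Pool.Agent.Lib.MP_8daebb_an.Mono

/-! The hypotheses of the question give the hypotheses of the theorem at small radii. -/

set_option linter.unusedSectionVars false

open MeasureTheory Metric Filter Topology Set
open scoped RealInnerProductSpace ENNReal ContDiff

namespace Pool.Agent.Lib.MP_8daebb_an.AE

open GM

variable {H : Type*} [NormedAddCommGroup H] [InnerProductSpace ℝ H] [FiniteDimensional ℝ H]
  [MeasurableSpace H] [BorelSpace H] {m : ℕ}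

theorem exists_radius {U : Set H} {V : Measure (H × (H →L[ℝ] H))}
    (hV : IsStationaryVarifold m U V) (hU : IsOpen U) {x₀ : H} (hx : x₀ ∈ U) {Q ε : ℝ}
    (hε : 0 < ε) (hd : HasDensity m V.fst x₀ Q) (hbad : DensityCondition m V.fst x₀ Q) :
    ∃ r > 0, ball x₀ r ⊆ U ∧ V.fst (ball x₀ r) ≤ ENNReal.ofReal ((Q + ε) * omega m * r ^ m) ∧
      V.fst ({x | ¬∃ θ, Q ≤ θ ∧ HasDensity m V.fst x θ} ∩ ball x₀ r) ≤
        ENNReal.ofReal (ε * r ^ m) := by
  obtain ⟨R, hR, hRU⟩ := nhds_basis_closedBall.mem_iff.1 (hU.mem_nhds hx)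
  have h1 : ∀ᶠ r : ℝ in 𝓝[>] 0, (V.fst (ball x₀ r)).toReal / (omega m * r ^ m) < Q + ε :=
    hd.eventually (eventually_lt_nhds (by linarith))
  have h2 : ∀ᶠ r : ℝ in 𝓝[>] 0,
      (V.fst ({x | ¬HasDensity m V.fst x Q} ∩ ball x₀ r)).toReal / r ^ m < ε :=
    hbad.eventually (eventually_lt_nhds hε)
  have h3 : ∀ᶠ r : ℝ in 𝓝[>] 0, r ∈ Ioo 0 R := Ioo_mem_nhdsGT hR
  obtain ⟨r, a1, a2, a3, a4⟩ := (h1.and (h2.and h3)).exists
  have hsub : closedBall x₀ r ⊆ U := (closedBall_subset_closedBall a4.le).trans hRU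
  have hfin : V.fst (ball x₀ r) < ⊤ :=
    (measure_mono ball_subset_closedBall).trans_lt (hV.radon _ (isCompact_closedBall _ _) hsub)
  have hw : 0 < omega m := Pool.Agent.Lib.MP_8daebb_an.omega_pos m
  have hr : 0 < r ^ m := pow_pos a3 m
  refine ⟨r, a3, ball_subset_closedBall.trans hsub, ?_, ?_⟩
  · rw [div_lt_iff₀ (mul_pos hw hr), ← mul_assoc] at a1
    exact (ENNReal.le_ofReal_iff_toReal_le hfin.ne
      (ENNReal.toReal_nonneg.trans a1.le)).2 a1.le
  · rw [div_lt_iff₀ hr] at a2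
    have hs : {x | ¬∃ θ, Q ≤ θ ∧ HasDensity m V.fst x θ} ⊆ {x | ¬HasDensity m V.fst x Q} :=
      fun x hy hq => hy ⟨Q, le_rfl, hq⟩
    refine (measure_mono (inter_subset_inter_left _ hs)).trans ?_
    exact (ENNReal.le_ofReal_iff_toReal_le
      ((measure_mono inter_subset_right).trans_lt hfin).ne
      (ENNReal.toReal_nonneg.trans a2.le)).2 a2.le

end Pool.Agent.Lib.MP_8daebb_an.AE
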