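import Pool.Agent.Lib.MP_8daebb_an.GM.EV

/-! Definitions for the regularity theorem with an exceptional set. -/

set_option linter.unusedSectionVars false

open MeasureTheory Metric Filter Topology Set
open scoped RealInnerProductSpace ENNReal ContDiff

namespace Pool.Agent.Lib.MP_8daebb_an.AE

open GM

variable {H : Type*} [NormedAddCommGroup H] [InnerProductSpace ℝ H] [FiniteDimensional ℝ H]
  [MeasurableSpace H] [BorelSpace H] {m : ℕ}

/-- The density of `μ` at `x` exists and is at least `Q`. -/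
def Good (m : ℕ) (μ : Measure H) (Q : ℝ) (x : H) : Prop := ∃ θ, Q ≤ θ ∧ HasDensity m μ x θ

/-- In the ball of radius `ρ` about `x₀` the set `S` is a smooth graph over `x₀ + ι(ℝ^m)`. -/
def GraphOn (S : Set H) (x₀ : H) (ρ : ℝ) (ι : E m →ₗᵢ[ℝ] H) : Prop :=
  ∃ f : E m → H, ContDiff ℝ ∞ f ∧ (∀ p q, ⟪f p, ι q⟫ = 0) ∧
    S ∩ ball x₀ ρ = (range fun p => x₀ + ι p + f p) ∩ ball x₀ ρ

end Pool.Agent.Lib.MP_8daebb_an.AE
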