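import Pool.Agent.Lib.MP_8daebb_an.AE.Defs
import Pool.Agent.Lib.MP_8daebb_an.TB.Reg

/-! The package EV at a good centre, and the way back from the blow-up. -/

set_option linter.unusedSectionVars false

open MeasureTheory Metric Filter Topology Set
open scoped RealInnerProductSpace ENNReal ContDiff

namespace Pool.Agent.Lib.MP_8daebb_an.AE

open GM

variable {H : Type*} [NormedAddCommGroup H] [InnerProductSpace ℝ H] [FiniteDimensional ℝ H]
  [MeasurableSpace H] [BorelSpace H] {m : ℕ}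

variable {U : Set H} {V : Measure (H × (H →L[ℝ] H))}

theorem ub_EVc (hV : IsStationaryVarifold m U V) (hU : IsOpen U) {x₀ : H} {r M : ℝ} (hr : 0 < r)
    (h4 : closedBall x₀ (6 * r) ⊆ U) (hM0 : (V.fst (ball x₀ (6 * r))).toReal ≤ M * r ^ m)
    (p : H) (σ : ℝ) (hσ : 0 < σ) : (blow m V x₀ r).fst.real (ball p σ) ≤ M * σ ^ m := by
  have h5 := (hV.ball_lt_top h4).ne
  have h6 : (V.fst (ball x₀ (6 * r))).toReal / r ^ m ≤ M := by
    rw [div_le_iff₀ (by positivity)]
    exact hM0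
  have hM : 0 ≤ M := le_trans (by positivity) h6
  rw [real_tev hr]
  rcases le_or_gt 1 σ with h7 | h7
  · refine le_trans ?_ (h6.trans (le_mul_of_one_le_right hM (one_le_pow₀ h7)))
    gcongr
    exact inter_subset_right.trans (ball_subset_ball (by linarith))
  · rcases (ball (x₀ + r • p) (r * σ) ∩ ball x₀ (4 * r)).eq_empty_or_nonempty with h8 | ⟨y, h8, h9⟩
    · rw [h8, measure_empty, ENNReal.toReal_zero, zero_div]
      positivity
    · have h10 : r * σ ≤ r := mul_le_of_le_one_right hr.le h7.le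
      have h11 : dist (x₀ + r • p) x₀ < 5 * r := by
        rw [mem_ball] at h8 h9
        have := dist_triangle_left (x₀ + r • p) x₀ y
        linarith
      have h12 : closedBall (x₀ + r • p) r ⊆ ball x₀ (6 * r) :=
        closedBall_subset_ball' (by linarith)
      have h13 := h12.trans (ball_subset_closedBall.trans h4)
      have h14 := mass_mono hV hU (mul_pos hr hσ) h10 h13
      have h15 : (V.fst (ball (x₀ + r • p) r)).toReal / r ^ m ≤
          (V.fst (ball x₀ (6 * r))).toReal / r ^ m := by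
        gcongr
        exact ball_subset_closedBall.trans h12
      have h16 := (hV.ball_lt_top ((closedBall_subset_closedBall h10).trans h13)).ne
      calc _ ≤ (V.fst (ball (x₀ + r • p) (r * σ))).toReal / r ^ m := by
            gcongr
            exact inter_subset_left
        _ = (V.fst (ball (x₀ + r • p) (r * σ))).toReal / (r * σ) ^ m * σ ^ m := by
            rw [mul_pow]; field_simp
        _ ≤ _ := mul_le_mul_of_nonneg_right (h14.trans (h15.trans h6)) (by positivity)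

theorem bad_EVc {x₀ : H} {r σ Q η : ℝ} (hr : 0 < r) (hσ : 0 < σ) (hσ3 : σ ≤ 3) (hη : 0 ≤ η)
    (hb : V.fst ({x | ¬Good m V.fst Q x} ∩ ball x₀ (r * σ)) ≤
      ENNReal.ofReal (η * (r * σ) ^ m)) :
    (blow m V x₀ r).real {z | ‖z.1‖ < σ ∧ ¬∃ᶠ s in 𝓝[>] (0 : ℝ),
        (Q - 1 / 100) * omega m * s ^ m ≤ (blow m V x₀ r).fst.real (ball z.1 s)} ≤
      η * σ ^ m := by
  have h2 : r * σ ≤ r * 3 := mul_le_mul_of_nonneg_left hσ3 hr.le
  have h4 : ENNReal.ofReal (r⁻¹ ^ m) * ENNReal.ofReal (η * (r * σ) ^ m) =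
      ENNReal.ofReal (η * σ ^ m) := by
    rw [← ENNReal.ofReal_mul (by positivity), mul_pow, inv_pow]
    congr 1
    field_simp
  refine ENNReal.toReal_le_of_le_ofReal (by positivity) ?_
  rw [← h4]
  refine (blow_apply_le hr _).trans (mul_le_mul_right (le_trans (le_trans
    (measure_mono fun w hw => ?_) (Measure.le_map_apply measurable_fst.aemeasurable _)) hb) _)
  obtain ⟨h5, h6⟩ := hw
  have h7 : dist w.1 x₀ < r * σ := by
    rwa [norm_smul, norm_inv, Real.norm_of_nonneg hr.le, inv_mul_lt_iff₀ hr, ← dist_eq_norm] at h5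
  refine ⟨fun ⟨θ, hθ, h8⟩ => h6 (Eventually.frequently ?_), h7⟩
  have hω := omega_pos m
  obtain ⟨δ, hδ, h9⟩ := dens_tev h8 (ε := omega m / 100) (by positivity)
  refine small_tev.2 ⟨min 1 (δ / r), by positivity, fun s hs hs' => ?_⟩
  have h10 : r * s ≤ r := mul_le_of_le_one_right hr.le (hs'.le.trans (min_le_left _ _))
  have h11 : r * s < δ := by
    have := hs'.trans_le (min_le_right _ _)
    rwa [lt_div_iff₀' hr] at this
  have h12 := (abs_le.1 (h9 (r * s) (mul_pos hr hs) h11)).1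
  have h13 : x₀ + r • r⁻¹ • (w.1 - x₀) = w.1 := by
    rw [smul_inv_smul₀ hr.ne', add_sub_cancel]
  have h14 := mul_le_mul_of_nonneg_right hθ
    (show 0 ≤ omega m * (r ^ m * s ^ m) by positivity)
  rw [real_tev hr, h13, inter_eq_left.2 (ball_subset_ball' (by linarith)),
    le_div_iff₀ (by positivity)]
  rw [mul_pow] at h12
  linarith

theorem ev_centre (hV : IsStationaryVarifold m U V) (hU : IsOpen U) (hi : TB.IsIntW m V)
    (hl : ∀ᵐ w ∂V, LD1 m V w.1) {y : H} {ρ M Q ε : ℝ} {ι : E m →ₗᵢ[ℝ] H} (hρ : 0 < ρ)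
    (hε : 0 ≤ ε) (h6 : closedBall y (6 * ρ) ⊆ U)
    (hM : (V.fst (ball y (6 * ρ))).toReal ≤ M * ρ ^ m) (hQ : 1 ≤ Q)
    (hflat : ∀ q ∈ V.fst.support, q ∈ ball y (4 * ρ) → ∃ v, ‖q - y - ι v‖ ≤ ε * ρ)
    (hmass : ∀ s, 0 < s → s ≤ 3 * ρ →
      |(V.fst (ball y s)).toReal - Q * omega m * s ^ m| ≤ ε * s ^ m)
    (hbad : ∀ s, 0 < s → s ≤ 3 * ρ →
      V.fst ({x | ¬Good m V.fst Q x} ∩ ball y s) ≤ ENNReal.ofReal (ε * s ^ m))
    (hbad0 : ∀ η > 0, ∀ᶠ s in 𝓝[>] (0 : ℝ),
      V.fst ({x | ¬Good m V.fst Q x} ∩ ball y s) ≤ ENNReal.ofReal (η * s ^ m)) :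
    EV (blow m V y ρ) ι M Q ε := by
  have h8 : closedBall y (4 * ρ) ⊆ U := (closedBall_subset_closedBall (by linarith)).trans h6
  have hfin := blow_fin hV hρ h8
  refine ⟨hfin, blow_car hV hρ, blow_stat hV hρ h8, (hi.blow y hρ).area, ?_,
    ub_EVc hV hU hρ h6 hM, ?_, fun σ hσ hσ3 => ?_, fun σ hσ hσ3 => ?_, fun η hη => ?_, hQ⟩
  · filter_upwards [TB.ld_blow_reg (x₀ := y) hl hρ] with z hz
    refine Eventually.frequently ?_
    filter_upwards [hz (1 / 100) (by norm_num)] with s hs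
    have h9 := (ENNReal.ofReal_le_iff_le_toReal (measure_ne_top _ _)).1 hs
    rw [Measure.real]
    linarith
  · refine ae_blow hρ ?_
    have h2 : ∀ᵐ w ∂V, w.1 ∈ V.fst.support :=
      ae_of_ae_map (p := fun x => x ∈ V.fst.support) measurable_fst.aemeasurable
        (Measure.support_mem_ae (μ := V.fst))
    filter_upwards [h2] with w hw hw'
    obtain ⟨v, hv⟩ := hflat w.1 hw hw'
    refine ⟨ρ⁻¹ • v, ?_⟩
    rw [map_smul, ← smul_sub, norm_smul, norm_inv, Real.norm_of_nonneg hρ.le,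
      inv_mul_le_iff₀ hρ, mul_comm]
    exact hv
  · have h2 : ρ * σ ≤ ρ * 3 := mul_le_mul_of_nonneg_left hσ3 hρ.le
    have h3 := hmass (ρ * σ) (mul_pos hρ hσ) (by linarith)
    rw [real_tev hρ, smul_zero, add_zero, inter_eq_left.2 (ball_subset_ball (by linarith))]
    have h4 : (V.fst (ball y (ρ * σ))).toReal / ρ ^ m - Q * omega m * σ ^ m =
        ((V.fst (ball y (ρ * σ))).toReal - Q * omega m * (ρ * σ) ^ m) / ρ ^ m := by
      rw [mul_pow]; field_simp
    rw [h4, abs_div, abs_of_pos (a := ρ ^ m) (by positivity), div_le_iff₀ (by positivity)]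
    exact h3.trans_eq (by rw [mul_pow]; ring)
  · have h2 : ρ * σ ≤ ρ * 3 := mul_le_mul_of_nonneg_left hσ3 hρ.le
    exact bad_EVc hρ hσ hσ3 hε (hbad _ (mul_pos hρ hσ) (by linarith))
  · obtain ⟨δ', hδ', h9⟩ := small_tev.1 (hbad0 η hη)
    refine ⟨min 3 (δ' / 2 / ρ), by positivity, fun σ hσ hσ' => ?_⟩
    have h10 := hσ'.trans (min_le_right _ _)
    rw [le_div_iff₀' hρ] at h10
    exact bad_EVc hρ hσ (hσ'.trans (min_le_left _ _)) hη.le
      (h9 _ (mul_pos hρ hσ) (by linarith))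

theorem graphOn_of_blow {x₀ y : H} {ρ : ℝ} (hρ : 0 < ρ) {ι : E m →ₗᵢ[ℝ] H}
    (h : GraphOn (blow m V y ρ).fst.support 0 (1 / 100) ι) (hx : dist x₀ y ≤ ρ / 200) :
    GraphOn V.fst.support x₀ (ρ / 200) ι := by
  obtain ⟨f, hf, hperp, hS⟩ := h
  refine ⟨fun p => ρ • f (ρ⁻¹ • (p + pr ι (x₀ - y))) - nr ι (x₀ - y), ?_, fun p q => ?_, ?_⟩
  · exact ((hf.comp ((contDiff_id.add contDiff_const).const_smul ρ⁻¹)).const_smul ρ).sub
      contDiff_const
  · rw [inner_sub_left, real_inner_smul_left, hperp, mul_zero, inner_nr_iota, sub_zero]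
  · ext x
    refine and_congr_left fun hx' => ?_
    have hxb : x ∈ ball y (ρ * (1 / 100)) := by
      rw [mem_ball] at hx' ⊢
      have := dist_triangle x x₀ y
      linarith
    have h2 := (mem_ball_zero_tblow hρ x _).2 hxb
    have hy := mem_ball_zero_iff.1 h2
    have hxy : y + ρ • (ρ⁻¹ • (x - y)) = x := (sc_tblow y hρ).left_inv x
    have h1 := mem_support_blow (m := m) (V := V) (x₀ := y) hρ
      (hy.trans (by norm_num : (1 / 100 : ℝ) < 4))
    rw [hxy] at h1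
    have h3 := Set.ext_iff.1 hS (ρ⁻¹ • (x - y))
    simp only [mem_inter_iff, h2, and_true] at h3
    rw [← h1, h3]
    have key : ∀ q : E m, x₀ + ι q + (ρ • f (ρ⁻¹ • (q + pr ι (x₀ - y))) - nr ι (x₀ - y)) =
        y + ρ • (0 + ι (ρ⁻¹ • (q + pr ι (x₀ - y))) + f (ρ⁻¹ • (q + pr ι (x₀ - y)))) := by
      intro q
      rw [zero_add, smul_add ρ, map_smul, smul_inv_smul₀ hρ.ne', map_add, nr_apply]
      abel
    constructor
    · rintro ⟨p, hp⟩
      refine ⟨ρ • p - pr ι (x₀ - y), ?_⟩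
      simp only at hp ⊢
      rw [key, sub_add_cancel, inv_smul_smul₀ hρ.ne', hp, hxy]
    · rintro ⟨q, hq⟩
      refine ⟨ρ⁻¹ • (q + pr ι (x₀ - y)), ?_⟩
      simp only at hq ⊢
      rw [key] at hq
      rw [← hq, add_sub_cancel_left, inv_smul_smul₀ hρ.ne']

end Pool.Agent.Lib.MP_8daebb_an.AE
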