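import Pool.Agent.Lib.MP_8daebb_an.AE.Defs

/-! One plane that is close to all points with many almost conical points nearby. -/

set_option linter.unusedSectionVars false

open MeasureTheory Metric Filter Topology Set
open scoped RealInnerProductSpace ENNReal ContDiff

namespace Pool.Agent.Lib.MP_8daebb_an.AE

open GM

variable {H : Type*} [NormedAddCommGroup H] [InnerProductSpace ℝ H] [FiniteDimensional ℝ H]
  [MeasurableSpace H] [BorelSpace H] {m : ℕ}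

theorem exists_iso {P : H →L[ℝ] H} (hP : IsPlane m P) :
    ∃ ι : E m →ₗᵢ[ℝ] H, ∀ x, ∃ v, ι v = P x := by
  obtain ⟨-, -, hr⟩ := hP
  let K := LinearMap.range (P : H →ₗ[ℝ] H)
  let b : OrthonormalBasis (Fin m) ℝ K := (stdOrthonormalBasis ℝ K).reindex (finCongr hr)
  refine ⟨K.subtypeₗᵢ.comp b.repr.symm.toLinearIsometry, fun x => ⟨b.repr ⟨P x, ⟨x, rfl⟩⟩, ?_⟩⟩
  simp

theorem norm_perp_le {P : H →L[ℝ] H} (hP : IsPlane m P) (x : H) : ‖x - P x‖ ≤ ‖x‖ := by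
  obtain ⟨hs, hi, -⟩ := hP
  have h1 : ⟪x, P x⟫ = ‖P x‖ ^ 2 := by
    rw [← real_inner_self_eq_norm_sq, hs, hi]
  have h2 := norm_sub_sq_real x (P x)
  refine (sq_le_sq₀ (norm_nonneg _) (norm_nonneg _)).1 ?_
  nlinarith [sq_nonneg ‖P x‖]

theorem exists_plane {ν : Measure (H × (H →L[ℝ] H))} [IsFiniteMeasure ν] {lam : Measure H}
    [IsFiniteMeasure lam] {A L N : ℝ} (hA : 0 ≤ A) (hL : 0 ≤ L) (hN : 0 < N)
    (hν : ENNReal.ofReal N ≤ ν univ) (hpl : ∀ᵐ z ∂ν, IsPlane m z.2)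
    (hlam : lam univ ≤ ENNReal.ofReal L)
    (h : ∀ᵐ p ∂lam, ∫⁻ z, ENNReal.ofReal (‖(z.1 - p) - z.2 (z.1 - p)‖ ^ 2) ∂ν ≤ ENNReal.ofReal A) :
    ∃ (x : H) (P : H →L[ℝ] H), IsPlane m P ∧ ∀ (q : H) (s β t : ℝ), 0 < β → 0 ≤ t →
      ENNReal.ofReal β ≤ lam (ball q s) → L * A / N < β * t ^ 2 →
      ‖(x - q) - P (x - q)‖ ≤ t + s := by
  have hF : Measurable fun w : H × (H × (H →L[ℝ] H)) =>
      ENNReal.ofReal (‖(w.2.1 - w.1) - w.2.2 (w.2.1 - w.1)‖ ^ 2) :=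
    (Continuous.measurable (by fun_prop)).ennreal_ofReal
  have h0 : ν ≠ 0 := by
    rintro rfl
    simp only [Measure.coe_zero, Pi.zero_apply, nonpos_iff_eq_zero, ENNReal.ofReal_eq_zero] at hν
    linarith
  obtain ⟨z, hz, h1⟩ := exists_notMem_null_le_laverage h0
    (f := fun z => ∫⁻ p, ENNReal.ofReal (‖(z.1 - p) - z.2 (z.1 - p)‖ ^ 2) ∂lam)
    (hF.lintegral_prod_left' (μ := lam)).aemeasurable (ae_iff.1 hpl)
  have hP : IsPlane m z.2 := not_not.1 hz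
  have h2 : ∫⁻ p, ENNReal.ofReal (‖(z.1 - p) - z.2 (z.1 - p)‖ ^ 2) ∂lam ≤
      ENNReal.ofReal (L * A / N) := by
    refine h1.trans ?_
    rw [laverage_eq, ENNReal.ofReal_div_of_pos hN, ← lintegral_lintegral_swap
      (f := fun (p : H) (z : H × (H →L[ℝ] H)) =>
        ENNReal.ofReal (‖(z.1 - p) - z.2 (z.1 - p)‖ ^ 2)) hF.aemeasurable]
    refine ENNReal.div_le_div ((lintegral_mono_ae h).trans ?_) hν
    rw [lintegral_const, mul_comm, ENNReal.ofReal_mul hL]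
    exact mul_le_mul_left hlam _
  refine ⟨z.1, z.2, hP, fun q s β t hβ ht hb hlt => le_of_not_gt fun hc => ?_⟩
  have h3 : ∀ p ∈ ball q s, ENNReal.ofReal (t ^ 2) ≤
      ENNReal.ofReal (‖(z.1 - p) - z.2 (z.1 - p)‖ ^ 2) := fun p hp => by
    refine ENNReal.ofReal_le_ofReal (pow_le_pow_left₀ ht ?_ 2)
    have e : (z.1 - q) - z.2 (z.1 - q) =
        ((z.1 - p) - z.2 (z.1 - p)) + ((p - q) - z.2 (p - q)) := by
      simp only [map_sub]; abel
    have h4 := norm_add_le ((z.1 - p) - z.2 (z.1 - p)) ((p - q) - z.2 (p - q))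
    have h5 := norm_perp_le hP (p - q)
    rw [mem_ball, dist_eq_norm] at hp
    rw [← e] at h4
    linarith
  have h6 : ENNReal.ofReal (β * t ^ 2) ≤ ENNReal.ofReal (L * A / N) := by
    refine le_trans ?_ (((setLIntegral_mono' measurableSet_ball h3).trans
      (setLIntegral_le_lintegral _ _)).trans h2)
    rw [setLIntegral_const, mul_comm β, ENNReal.ofReal_mul (sq_nonneg t)]
    exact mul_le_mul_right hb _
  rw [ENNReal.ofReal_le_ofReal_iff (by positivity)] at h6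
  linarith

end Pool.Agent.Lib.MP_8daebb_an.AE
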