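import Pool.Agent.Lib.MP_8daebb_an.AE.Defs
import Pool.Agent.Lib.MP_8daebb_an.GM.TMono

/-! Measurability of the good set, upper mass bounds, and the choice of two constants. -/

set_option linter.unusedSectionVars false

open MeasureTheory Metric Filter Topology Set
open scoped RealInnerProductSpace ENNReal ContDiff

namespace Pool.Agent.Lib.MP_8daebb_an.AE

open GM

variable {H : Type*} [NormedAddCommGroup H] [InnerProductSpace ℝ H] [FiniteDimensional ℝ H]
  [MeasurableSpace H] [BorelSpace H] {m : ℕ}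

variable {U : Set H} {V : Measure (H × (H →L[ℝ] H))}

theorem measurableSet_good (hV : IsStationaryVarifold m U V) (hU : IsOpen U) (Q : ℝ) :
    MeasurableSet {x | x ∈ U ∧ Good m V.fst Q x} := by
  have e : {x | x ∈ U ∧ Good m V.fst Q x} = U ∩ ⋂ q : {q : ℚ // 0 < q},
      ({x | closedBall x (q.1 : ℝ) ⊆ U}ᶜ ∪
        {x | ENNReal.ofReal (Q * omega m * (q.1 : ℝ) ^ m) ≤ V.fst (ball x (q.1 : ℝ))}) := by
    have hω := omega_pos m
    ext x
    simp only [Good, mem_ofPred_eq, mem_inter_iff, mem_iInter, mem_union, mem_compl_iff]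
    refine and_congr_right fun hx => ⟨?_, fun h => ?_⟩
    · rintro ⟨θ, h1, h2⟩ q
      rw [← imp_iff_not_or]
      intro h3
      have h4 := hV.mass_ge_of_density h2 (by exact_mod_cast q.2) h3 hU
      refine ENNReal.ofReal_le_of_le_toReal (le_trans ?_ h4)
      have hq : (0 : ℝ) < q.1 := by exact_mod_cast q.2
      gcongr
    · obtain ⟨θ, hθ⟩ := exists_hasDensity hV hU hx
      refine ⟨θ, ge_of_tendsto hθ ?_, hθ⟩
      filter_upwards [ev_closedBall_tmono hU hx] with r hr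
      obtain ⟨q, h1, h2⟩ := exists_rat_btwn hr.1
      have h3 : closedBall x (q : ℝ) ⊆ U := (closedBall_subset_closedBall h2.le).trans hr.2
      have h4 := (h ⟨q, by exact_mod_cast h1⟩).resolve_left (not_not.2 h3)
      rw [ENNReal.ofReal_le_iff_le_toReal (hV.ball_lt_top h3).ne, ← le_div_iff₀ (by positivity)]
        at h4
      rw [mul_comm, ← div_div, le_div_iff₀ hω]
      exact h4.trans (mass_mono hV hU h1 h2.le hr.2)
  rw [e]
  refine hU.measurableSet.inter (MeasurableSet.iInter fun q => ?_)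
  have hq : (0 : ℝ) < q.1 := by exact_mod_cast q.2
  exact (isOpen_closedBall_tmono hU hq.le).measurableSet.compl.union
    (measurableSet_le measurable_const (measurable_ball_tmono _ hq))

theorem mass_ub (hV : IsStationaryVarifold m U V) (hU : IsOpen U) {x₀ p : H} {r s s' A : ℝ}
    (hA : 0 ≤ A) (hx : ball x₀ r ⊆ U) (hm : V.fst (ball x₀ r) ≤ ENNReal.ofReal A) (hs : 0 < s)
    (hss : s ≤ s') (hp : dist p x₀ + s' < r) :
    (V.fst (ball p s)).toReal ≤ A / s' ^ m * s ^ m := by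
  have hs' : 0 < s' := hs.trans_le hss
  have h1 : closedBall p s' ⊆ ball x₀ r := closedBall_subset_ball' (by linarith)
  have h2 := mass_mono hV hU hs hss (h1.trans hx)
  rw [div_le_iff₀ (by positivity)] at h2
  refine h2.trans ?_
  gcongr
  exact ENNReal.toReal_le_of_le_ofReal hA
    ((measure_mono (ball_subset_closedBall.trans h1)).trans hm)

theorem exists_kappa (m : ℕ) {Q τ : ℝ} (hQ : 0 ≤ Q) (hτ : 0 < τ) :
    ∃ κ : ℝ, 10 / 11 ≤ κ ∧ κ < 1 ∧ Q * (1 - κ ^ m) ≤ τ := by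
  have h0 := hQ
  have h1 : Tendsto (fun κ : ℝ => Q * (1 - κ ^ m)) (𝓝[<] 1) (𝓝 0) := by
    have : Continuous fun κ : ℝ => Q * (1 - κ ^ m) := by fun_prop
    simpa using (this.tendsto 1).mono_left nhdsWithin_le_nhds
  obtain ⟨κ, h2, h3⟩ := ((h1.eventually (gt_mem_nhds hτ)).and
    (Ioo_mem_nhdsLT (show (10 / 11 : ℝ) < 1 by norm_num))).exists
  exact ⟨κ, h3.1.le, h3.2, h2.le⟩

theorem exists_gamma (m : ℕ) {Q e : ℝ} (hQ : 0 ≤ Q) (he : 0 < e) :
    ∃ γ : ℝ, 0 < γ ∧ γ ≤ 1 / 100 ∧ (Q + e / 2) / (1 - 7 * γ) ^ m ≤ Q + e := by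
  have h0 := hQ
  have h1 : Tendsto (fun γ : ℝ => (Q + e / 2) / (1 - 7 * γ) ^ m) (𝓝[>] 0) (𝓝 (Q + e / 2)) := by
    have : ContinuousAt (fun γ : ℝ => (Q + e / 2) / (1 - 7 * γ) ^ m) 0 :=
      continuousAt_const.div (by fun_prop) (by simp)
    simpa using this.tendsto.mono_left nhdsWithin_le_nhds
  obtain ⟨γ, h2, h3⟩ := ((h1.eventually (gt_mem_nhds (show Q + e / 2 < Q + e by linarith))).and
    (Ioo_mem_nhdsGT (show (0 : ℝ) < 1 / 100 by norm_num))).exists
  exact ⟨γ, h3.1, h3.2.le, h2.le⟩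

end Pool.Agent.Lib.MP_8daebb_an.AE
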