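import Pool.Agent.Lib.MP_8daebb_an.AE.Cone
import Pool.Agent.Lib.MP_8daebb_an.AE.Flat
import Pool.Agent.Lib.MP_8daebb_an.AE.Centre
import Pool.Agent.Lib.MP_8daebb_an.AE.Meas
import Pool.Agent.Lib.MP_8daebb_an.AE.EVc

/-! Assembly of the regularity theorem with an exceptional set. -/

set_option linter.unusedSectionVars false

open MeasureTheory Metric Filter Topology Set
open scoped RealInnerProductSpace ENNReal ContDiff

namespace Pool.Agent.Lib.MP_8daebb_an.AE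

open GM

variable {H : Type*} [NormedAddCommGroup H] [InnerProductSpace ℝ H] [FiniteDimensional ℝ H]
  [MeasurableSpace H] [BorelSpace H] {m : ℕ}

theorem allard_small {U : Set H} {V : Measure (H × (H →L[ℝ] H))} (hU : IsOpen U)
    (hV : IsStationaryVarifold m U V) (hl : ∀ᵐ w ∂V, LD1 m V w.1) {x₀ : H}
    (hx : x₀ ∈ V.fst.support) {r Q : ℝ} (hr : 0 < r) (hb : ball x₀ r ⊆ U) (hQ : Q < 1)
    (h : V.fst (ball x₀ r) ≤ ENNReal.ofReal (Q * omega m * r ^ m)) : False := by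
  obtain ⟨κ, k1, k2, k3⟩ := exists_kappa m (Q := 1) (τ := (1 - Q) / 2) zero_le_one (by linarith)
  have hω := omega_pos m
  have h0 : 0 < κ * r := mul_pos (by linarith) hr
  have h1 : κ * r < r := by nlinarith
  have h2 : closedBall x₀ (κ * r) ⊆ U := (closedBall_subset_ball h1).trans hb
  have h3 := hV.mass_ge_of_support (TB.ae_density_ge_reg hV hU hl) hx h0 h2 hU
  have h4 := (ENNReal.ofReal_le_of_le_toReal h3).trans
    ((measure_mono (ball_subset_ball h1.le)).trans h)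
  have h5 : 0 < omega m * r ^ m := by positivity
  rcases ENNReal.ofReal_le_ofReal_iff'.1 h4 with h6 | h6
  · rw [mul_pow] at h6
    nlinarith
  · exact absurd h6 (not_le.2 (by positivity))

theorem allard_core {U : Set H} {V : Measure (H × (H →L[ℝ] H))} (hU : IsOpen U)
    (hV : IsStationaryVarifold m U V) (hi : TB.IsIntW m V) (hl : ∀ᵐ w ∂V, LD1 m V w.1) {x₀ : H}
    (hx : x₀ ∈ V.fst.support) {r Q ε e₀ M₀ δ τ κ e γ : ℝ} (hr : 0 < r) (hb : ball x₀ r ⊆ U)
    (hQ : 1 ≤ Q) (hε : 0 < ε) (he₀ : 0 < e₀) (hM₀ : (Q + ε) * omega m * 2 ^ m ≤ M₀)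
    (hδ : 0 < δ) (hδ1 : δ ≤ 1) (hδ2 : 4 * δ ≤ e₀) (hτ : 0 ≤ τ)
    (hτ1 : 5 ^ m * M₀ * τ / omega m < omega m * δ ^ m / 2 * δ ^ 2)
    (k1 : 10 / 11 ≤ κ) (k2 : κ < 1) (k3 : 11 ^ (m + 2) * (omega m * (e + Q * (1 - κ ^ m))) ≤ τ)
    (he : e * omega m ≤ e₀) (hγ : 0 < γ) (hγ1 : γ ≤ 1 / 100)
    (hγ2 : (Q + ε) / (1 - 7 * γ) ^ m ≤ Q + e) (e1 : ε ≤ omega m * (δ * γ) ^ m / 2)
    (e2 : ε + M₀ * 6 ^ m * ε / e₀ < omega m * (γ / 200) ^ m)
    (h1 : V.fst (ball x₀ r) ≤ ENNReal.ofReal ((Q + ε) * omega m * r ^ m))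
    (h2 : V.fst ({x | ¬Good m V.fst Q x} ∩ ball x₀ r) ≤ ENNReal.ofReal (ε * r ^ m)) :
    ∃ (y : H) (ι : E m →ₗᵢ[ℝ] H), dist x₀ y ≤ γ * r / 200 ∧
      EV (blow m V y (γ * r)) ι (6 ^ m * M₀) Q e₀ := by
  have hω := omega_pos m
  have hM0 : 0 ≤ M₀ := le_trans (by positivity) hM₀
  obtain ⟨ρ, hρd⟩ : ∃ ρ, ρ = γ * r := ⟨_, rfl⟩
  have hρ : 0 < ρ := by rw [hρd]; positivity
  have hρr : 100 * ρ ≤ r := by rw [hρd]; nlinarith
  have hrm : 0 < r ^ m := by positivity
  rw [← hρd]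
  have hfin : V.fst (ball x₀ r) < ⊤ := h1.trans_lt ENNReal.ofReal_lt_top
  have sub : ∀ {p : H} {s : ℝ}, dist p x₀ + s < r → closedBall p s ⊆ U := fun h =>
    (closedBall_subset_ball' (by linarith)).trans hb
  have low : ∀ {q : H} {s : ℝ}, q ∈ V.fst.support → 0 < s → dist q x₀ + s < r →
      ENNReal.ofReal (omega m * s ^ m) ≤ V.fst (ball q s) := fun hq hs h =>
    ENNReal.ofReal_le_of_le_toReal
      (hV.mass_ge_of_support (TB.ae_density_ge_reg hV hU hl) hq hs (sub h) hU)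
  have ub : ∀ p ∈ ball x₀ (r / 4), ∀ s, 0 < s → s ≤ r / 2 →
      (V.fst (ball p s)).toReal ≤ M₀ * s ^ m := by
    intro p hp s hs hs'
    refine (mass_ub hV hU (by positivity) hb h1 hs hs' (by linarith [mem_ball.1 hp])).trans ?_
    refine mul_le_mul_of_nonneg_right (le_trans (le_of_eq ?_) hM₀) (by positivity)
    rw [div_pow]
    field_simp
  have ub' : ∀ p ∈ ball x₀ (r / 4), ∀ s, 0 < s → s ≤ r / 2 →
      V.fst (ball p s) ≤ ENNReal.ofReal (M₀ * s ^ m) := fun p hp s hs hs' =>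
    (ENNReal.le_ofReal_iff_toReal_le (hV.ball_lt_top (sub (by linarith [mem_ball.1 hp]))).ne
      (by positivity)).2 (ub p hp s hs hs')
  have pinch : ∀ {p : H} {s : ℝ}, dist p x₀ < 6 * ρ → 0 < s → s ≤ 11 * ρ →
      (V.fst (ball p s)).toReal ≤ (Q + e) * omega m * s ^ m := by
    intro p s hp hs hs'
    have a1 : (1 - 7 * γ) * r = r - 7 * ρ := by rw [hρd]; ring
    refine (mass_ub hV hU (s' := (1 - 7 * γ) * r) (by positivity) hb h1 hs (by linarith)
      (by linarith)).trans ?_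
    refine mul_le_mul_of_nonneg_right
      (le_trans (le_of_eq ?_) (mul_le_mul_of_nonneg_right hγ2 hω.le)) (by positivity)
    have a2 : 0 < 1 - 7 * γ := by linarith
    rw [mul_pow]
    field_simp
  set G := {x | x ∈ U ∧ Good m V.fst Q x} with hGd
  have hG : MeasurableSet G := measurableSet_good hV hU Q
  have h2' : V.fst (Gᶜ ∩ ball x₀ r) ≤ ENNReal.ofReal (ε * r ^ m) := by
    refine le_trans (measure_mono ?_) h2
    exact fun x hx => ⟨fun h => hx.1 ⟨hb hx.2, h⟩, hx.2⟩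
  have hGB : ∀ S : Set H, V.fst ({x | ¬Good m V.fst Q x} ∩ S) ≤ V.fst (Gᶜ ∩ S) := fun S =>
    measure_mono fun x hx => ⟨fun h => hx.1 h.2, hx.2⟩
  obtain ⟨y, y1, y2, y3, y4, y5⟩ := exists_centre (m := m) hG (a := ρ / 200) (e := e₀)
    (β := omega m * (ρ / 200) ^ m) (by positivity) (by linarith) he₀ hM0 (by positivity) hfin ub'
    (low hx (by positivity) (by rw [dist_self]; linarith)) h2' (by
      have a1 := mul_lt_mul_of_pos_right e2 hrm
      have a2 : (ρ / 200) ^ m = (γ / 200) ^ m * r ^ m := by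
        rw [← mul_pow, hρd]
        congr 1
        ring
      rw [a2]
      refine lt_of_le_of_lt (le_of_eq ?_) (a1.trans_eq (by ring))
      ring)
  have y1' : dist y x₀ < ρ / 200 := y1
  have y6 : y ∈ ball x₀ (r / 4) := ball_subset_ball (by linarith) y1
  have near : ∀ {p : H} {s : ℝ}, p ∈ ball y s → dist p x₀ < s + ρ / 200 := fun {p s} hp => by
    linarith [dist_triangle p y x₀, mem_ball.1 hp]
  have hT : MeasurableSet (Prod.fst ⁻¹' ball y (5 * ρ) : Set (H × (H →L[ℝ] H))) :=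
    measurable_fst measurableSet_ball
  have hν : V.restrict (Prod.fst ⁻¹' ball y (5 * ρ)) univ = V.fst (ball y (5 * ρ)) := by
    rw [Measure.restrict_apply_univ, Measure.fst_apply measurableSet_ball]
  have hlam : V.fst.restrict (G ∩ ball y (5 * ρ)) univ ≤ ENNReal.ofReal (5 ^ m * M₀ * ρ ^ m) := by
    rw [Measure.restrict_apply_univ]
    refine (measure_mono inter_subset_right).trans
      ((ub' y y6 _ (by positivity) (by linarith)).trans_eq ?_)
    congr 1
    rw [mul_pow]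
    ring
  have f1 : IsFiniteMeasure (V.restrict (Prod.fst ⁻¹' ball y (5 * ρ))) :=
    ⟨by rw [hν]; exact hV.ball_lt_top (sub (by linarith))⟩
  have f2 : IsFiniteMeasure (V.fst.restrict (G ∩ ball y (5 * ρ))) :=
    ⟨hlam.trans_lt ENNReal.ofReal_lt_top⟩
  obtain ⟨x, P, hP, hq⟩ := exists_plane (m := m) (ν := V.restrict (Prod.fst ⁻¹' ball y (5 * ρ)))
    (A := τ * ρ ^ (m + 2)) (N := omega m * ρ ^ m) (by positivity) (by positivity) (by positivity)
    (by
      rw [hν]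
      exact (low y3 hρ (by linarith)).trans (measure_mono (ball_subset_ball (by linarith))))
    (ae_restrict_of_ae (hV.carried.mono fun z hz => hz.2)) hlam (by
      filter_upwards [ae_restrict_mem (hG.inter measurableSet_ball)] with p hp
      obtain ⟨θ, t1, t2⟩ := hp.1.2
      have a1 := near hp.2
      have a2 := cone_est hV hU (b := 11 * ρ) (κ := κ) (by positivity) (by linarith) k2
        (by linarith) (sub (by linarith)) t2 t1 (pinch (by linarith) (by positivity) le_rfl)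
      refine (lintegral_mono_set (preimage_mono (ball_subset_ball' ?_))).trans
        (a2.trans (ENNReal.ofReal_le_ofReal ?_))
      · have a3 := mem_ball'.1 hp.2
        nlinarith
      · rw [mul_pow, mul_right_comm]
        exact mul_le_mul_of_nonneg_right k3 (by positivity))
  have key : ∀ q ∈ V.fst.support, q ∈ ball y (4 * ρ) →
      ‖(x - q) - P (x - q)‖ ≤ δ * ρ + δ * ρ := by
    intro q q1 q2
    have a0 : δ * ρ ≤ ρ := mul_le_of_le_one_left hρ.le hδ1
    have a1 := near q2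
    refine hq q _ (omega m * (δ * ρ) ^ m / 2) _ (by positivity) (by positivity) ?_ ?_
    · have a2 := low q1 (mul_pos hδ hρ) (by linarith)
      have a3 : ball q (δ * ρ) ⊆ (ball q (δ * ρ) ∩ (G ∩ ball y (5 * ρ))) ∪ (Gᶜ ∩ ball x₀ r) := by
        intro p hp
        have b1 : p ∈ ball y (5 * ρ) := ball_subset_ball' (by linarith [mem_ball.1 q2]) hp
        by_cases hpG : p ∈ G
        · exact Or.inl ⟨hp, hpG, b1⟩
        · exact Or.inr ⟨hpG, mem_ball.2 (by linarith [near b1])⟩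
      have a4 : ε * r ^ m ≤ omega m * (δ * ρ) ^ m / 2 := by
        refine (mul_le_mul_of_nonneg_right e1 hrm.le).trans_eq ?_
        rw [hρd, ← mul_assoc δ, mul_pow _ r]
        ring
      have a5 := a2.trans ((measure_mono a3).trans ((measure_union_le _ _).trans
        (add_le_add le_rfl (h2'.trans (ENNReal.ofReal_le_ofReal a4)))))
      rw [← add_halves (omega m * (δ * ρ) ^ m), ENNReal.ofReal_add (by positivity) (by positivity),
        add_halves] at a5
      rw [Measure.restrict_apply measurableSet_ball]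
      exact ENNReal.le_of_add_le_add_right ENNReal.ofReal_ne_top a5
    · have a2 := mul_lt_mul_of_pos_right hτ1 (show 0 < ρ ^ (m + 2) by positivity)
      refine lt_of_le_of_lt (le_of_eq ?_) (a2.trans_eq ?_)
      · field_simp
      · rw [mul_pow, mul_pow]
        ring
  obtain ⟨ι, hι⟩ := exists_iso hP
  refine ⟨y, ι, by rw [dist_comm]; exact y1'.le, ev_centre hV hU hi hl hρ he₀.le
    (sub (by linarith)) ((ub y y6 _ (by positivity) (by linarith)).trans_eq ?_) hQ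
    (fun q q1 q2 => ?_) (fun s hs hs' => ?_)
    (fun s hs hs' => (hGB _).trans (y4 s hs (by linarith)))
    fun η hη => (y5 η hη).mono fun s hs => (hGB _).trans hs⟩
  · rw [mul_pow]
    ring
  · obtain ⟨v, hv⟩ := hι (q - y)
    have a1 := key q q1 q2
    have a2 := key y y3 (mem_ball_self (by positivity))
    have a3 : q - y - ι v = ((x - y) - P (x - y)) - ((x - q) - P (x - q)) := by
      rw [hv]
      simp only [map_sub]
      abel
    refine ⟨v, ?_⟩
    rw [a3]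
    refine (norm_sub_le _ _).trans ?_
    nlinarith
  · obtain ⟨θ, t1, t2⟩ := y2.2
    have a1 := hV.mass_ge_of_density t2 hs (sub (by linarith)) hU
    have a2 := pinch (p := y) (by linarith) hs (by linarith)
    have a3 : 0 < s ^ m := by positivity
    have a4 := mul_le_mul_of_nonneg_right he a3.le
    have a5 := mul_le_mul_of_nonneg_right t1 (mul_pos hω a3).le
    have a6 := mul_pos he₀ a3
    rw [abs_le]
    constructor <;> nlinarith

theorem allard_of
    (hev : ∀ M θ : ℝ, ∃ ε > 0, ∀ (W : Measure (H × (H →L[ℝ] H))) (ι : E m →ₗᵢ[ℝ] H),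
      EV W ι M θ ε → GraphOn W.fst.support 0 (1 / 100) ι) (Q : ℝ) :
    ∃ ε > 0, ∃ c > 0, ∀ (U : Set H) (V : Measure (H × (H →L[ℝ] H))), IsOpen U →
      IsStationaryVarifold m U V → TB.IsIntW m V → (∀ᵐ w ∂V, LD1 m V w.1) →
      ∀ x₀ ∈ V.fst.support, ∀ r > 0, ball x₀ r ⊆ U →
      V.fst (ball x₀ r) ≤ ENNReal.ofReal ((Q + ε) * omega m * r ^ m) →
      V.fst ({x | ¬Good m V.fst Q x} ∩ ball x₀ r) ≤ ENNReal.ofReal (ε * r ^ m) →
      ∃ ι : E m →ₗᵢ[ℝ] H, GraphOn V.fst.support x₀ (c * r) ι := by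
  by_cases hQ : 1 ≤ Q
  swap
  · exact ⟨(1 - Q) / 2, by linarith, 1, one_pos, fun U V hU hV _ hl x₀ hx r hr hb h1 _ =>
      (allard_small hU hV hl hx hr hb (by linarith) h1).elim⟩
  have hω := omega_pos m
  obtain ⟨M₀, hM₀⟩ : ∃ M₀, M₀ = (Q + 1) * omega m * 2 ^ m := ⟨_, rfl⟩
  have hM0 : 0 < M₀ := by rw [hM₀]; positivity
  obtain ⟨e₀, he₀, hev⟩ := hev (6 ^ m * M₀) Q
  obtain ⟨δ, hδ, hδ1, hδ2⟩ : ∃ δ : ℝ, 0 < δ ∧ δ ≤ 1 ∧ 4 * δ ≤ e₀ :=
    ⟨min 1 (e₀ / 4), by positivity, min_le_left _ _, by linarith [min_le_right 1 (e₀ / 4)]⟩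
  obtain ⟨τ, hτ, hτ1⟩ : ∃ τ : ℝ, 0 < τ ∧
      5 ^ m * M₀ * τ / omega m < omega m * δ ^ m / 2 * δ ^ 2 := by
    refine ⟨omega m * (omega m * δ ^ m / 2 * δ ^ 2 / 2) / (5 ^ m * M₀), by positivity,
      lt_of_le_of_lt (le_of_eq ?_) (half_lt_self (by positivity))⟩
    field_simp
  obtain ⟨κ, k1, k2, k3⟩ := exists_kappa m (Q := Q) (τ := τ / (2 * 11 ^ (m + 2) * omega m))
    (by linarith) (by positivity)
  obtain ⟨e, he, he1, he2⟩ : ∃ e : ℝ, 0 < e ∧ e ≤ τ / (2 * 11 ^ (m + 2) * omega m) ∧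
      e ≤ e₀ / omega m := ⟨min _ _, by positivity, min_le_left _ _, min_le_right _ _⟩
  obtain ⟨γ, hγ, hγ1, hγ2⟩ := exists_gamma m (Q := Q) (by linarith) he
  obtain ⟨ε, hε, e1, e2, e3, e4⟩ : ∃ ε : ℝ, 0 < ε ∧ ε ≤ e / 2 ∧ ε ≤ 1 ∧
      ε ≤ omega m * (δ * γ) ^ m / 2 ∧
      ε ≤ omega m * (γ / 200) ^ m / 2 / (1 + M₀ * 6 ^ m / e₀) :=
    ⟨min (min _ _) (min _ _), by positivity, (min_le_left _ _).trans (min_le_left _ _),
      (min_le_left _ _).trans (min_le_right _ _), (min_le_right _ _).trans (min_le_left _ _),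
      (min_le_right _ _).trans (min_le_right _ _)⟩
  refine ⟨ε, hε, γ / 200, by positivity, fun U V hU hV hi hl x₀ hx r hr hb h1 h2 => ?_⟩
  obtain ⟨y, ι, y1, y2⟩ := allard_core hU hV hi hl hx hr hb hQ hε he₀ (M₀ := M₀)
    (by rw [hM₀]; gcongr) hδ hδ1 hδ2 hτ.le hτ1 k1 k2 (e := e) (by
      calc _ ≤ 11 ^ (m + 2) * (omega m * (τ / (2 * 11 ^ (m + 2) * omega m) +
            τ / (2 * 11 ^ (m + 2) * omega m))) := by gcongr
        _ = τ := by field_simp; norm_num)
    ((le_div_iff₀ hω).1 he2) hγ hγ1 (le_trans (by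
      have : 0 < 1 - 7 * γ := by linarith
      gcongr) hγ2) e3 (by
      rw [le_div_iff₀ (by positivity)] at e4
      refine lt_of_le_of_lt (le_trans (le_of_eq ?_) e4) (half_lt_self (by positivity))
      ring) h1 h2
  refine ⟨ι, ?_⟩
  rw [div_mul_eq_mul_div]
  exact graphOn_of_blow (mul_pos hγ hr) (hev _ _ y2) y1

end Pool.Agent.Lib.MP_8daebb_an.AE
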