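import Pool.Agent.Lib.MP_8daebb_an.AE.UnifB
import Pool.Agent.Lib.MP_8daebb_an.GM.EvReg

/-! The regularity theorem for the package EV with a uniform radius. -/

set_option linter.unusedSectionVars false

open MeasureTheory Metric Filter Topology Set
open scoped RealInnerProductSpace ENNReal ContDiff

namespace Pool.Agent.Lib.MP_8daebb_an.AE

open GM

variable {H : Type*} [NormedAddCommGroup H] [InnerProductSpace ℝ H] [FiniteDimensional ℝ H]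
  [MeasurableSpace H] [BorelSpace H] {m : ℕ}

theorem ev_regular_unif (hm : 1 ≤ m) (M θ : ℝ) : ∃ ε > 0,
    ∀ (W : Measure (H × (H →L[ℝ] H))) (ι : E m →ₗᵢ[ℝ] H),
    EV W ι M θ ε → GraphOn W.fst.support 0 (1 / 100) ι := by
  by_cases hθ : 1 ≤ θ
  swap
  · exact ⟨1, one_pos, fun W ι hW => absurd hW.θ_ge hθ⟩
  obtain ⟨M₁, hA⟩ := Ch.sysA (d := m) (n := Module.finrank ℝ H - m) (H := H) hm M θ
  obtain ⟨e, he, hB⟩ := sysB_unif (d := m) (n := Module.finrank ℝ H - m) (H := H)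
  obtain ⟨Q, δ, hδ, hQ, hZ⟩ := sys_zero (d := m) (α := H × (H →L[ℝ] H)) (H := H)
    (C := Ch.Cen m (Module.finrank ℝ H - m)) (AS.slemL (by simpa using hm)) M₁ θ
  obtain ⟨CN, cN, KN, hcN, hA⟩ := hA Q (hQ hθ)
  obtain ⟨e₀, he₀, hA⟩ := hA δ hδ
  have he₁ : 0 < min e₀ e := lt_min he₀ he
  obtain ⟨εB, δ₂, hεB, hδ₂, hZ⟩ := hZ CN cN _ KN hcN he₁
  obtain ⟨η₀, hη₀, hA⟩ := hA _ he₁ (min_le_left _ _) εB hεB δ₂ hδ₂
  refine ⟨min η₀ e, lt_min hη₀ he, fun W ι hW => ?_⟩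
  obtain ⟨κ, hκ⟩ := Ch.exists_spl ι
  exact hB W ι κ M θ _ _ hκ hW (min_le_right _ _) (min_le_right _ _)
    (hZ _ _ (hA _ (min_le_left _ _) W ι κ hκ hW))

end Pool.Agent.Lib.MP_8daebb_an.AE
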