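import Pool.Agent.Lib.MP_8daebb_an.AE.Defs
import Pool.Agent.Lib.MP_8daebb_an.GM.ChSysB

/-! The case of zero energy, with a uniform radius. -/

set_option linter.unusedSectionVars false

open MeasureTheory Metric Set Filter Topology
open scoped RealInnerProductSpace ContDiff ENNReal

namespace Pool.Agent.Lib.MP_8daebb_an.AE

open GM GM.Ch

variable {d n : ℕ} {H : Type*} [NormedAddCommGroup H] [InnerProductSpace ℝ H]
  [FiniteDimensional ℝ H] [MeasurableSpace H] [BorelSpace H]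

theorem graph_of_centre_unif : ∃ ε₀ : ℝ, 0 < ε₀ ∧ ∀ (ι : E d →ₗᵢ[ℝ] H) (κ : E n →ₗᵢ[ℝ] H) (c : Cen d n)
    (ε : ℝ) (S : Set H), Spl ι κ → Adm ι κ c ε (1 / 4) → ε ≤ ε₀ →
    c.F ι κ 0 = 0 → S ∩ ball 0 (1 / 10) ⊆ range (c.F ι κ) →
    (∀ z : E d, ‖z‖ < 1 / 50 → c.F ι κ z ∈ S) → GraphOn S 0 (1 / 100) ι := by
  obtain ⟨ε₁, hε₁, hsm⟩ := NN_smooth (d := d) (n := n)
  refine ⟨min ε₁ (1 / 10), lt_min hε₁ (by norm_num),
    fun ι κ c ε S hs ha hε h0 h1 h2 => ?_⟩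
  have hε' : ε ≤ 1 / 10 := hε.trans (min_le_right _ _)
  have hfr := ha.fr hε'
  obtain ⟨-, i1, -, -, -, i2⟩ := hfr.inv
  have hx₀ : c.x₀ = 0 := by
    have h3 := hs.vx_gr c.u (c.x₀ + c.A 0)
    have h4 : gr ι κ c.u (c.x₀ + c.A 0) = 0 := h0
    rw [h4, vx, map_zero, map_zero, add_zero] at h3
    exact h3.symm
  have hu : ContDiffOn ℝ ∞ c.u (ball 0 (1 / 5)) := by
    refine hsm c.u _ ((ha.sml.mono_s (Nat.zero_le _)).mono (hε.trans (min_le_left _ _)))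
      isOpen_ball (ball_subset_ball (by norm_num)) fun x hx => ha.eqn_el hε' x ?_
    have h3 := (i2 x).2
    rw [mem_ball_zero_iff] at hx
    show ‖Ring.inverse c.A (x - c.x₀)‖ < 1 / 4
    rw [hx₀, sub_zero]
    linarith
  let χ : ContDiffBump (0 : E d) := ⟨1 / 8, 1 / 6, by norm_num, by norm_num⟩
  have hχ : ∀ x : E d, ‖x‖ < 1 / 10 → χ x = 1 := fun x hx =>
    χ.one_of_mem_closedBall (mem_closedBall_zero_iff.2 (hx.le.trans (by norm_num [χ])))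
  refine ⟨fun p => κ (χ p • c.u p),
    κ.toContinuousLinearMap.contDiff.comp (smooth_Z4 hu χ (by norm_num [χ])),
    fun p q => by rw [real_inner_comm, hs.orth], ?_⟩
  simp only [zero_add]
  ext p
  constructor
  · rintro ⟨hp, hb⟩
    refine ⟨?_, hb⟩
    rw [mem_ball_zero_iff] at hb
    obtain ⟨z, hz⟩ := h1 ⟨hp, mem_ball_zero_iff.2 (by linarith)⟩
    have h3 : ι (c.x₀ + c.A z) + κ (c.u (c.x₀ + c.A z)) = p := hz
    have h4 := norm_le_Z4 hs (c.x₀ + c.A z) (c.u (c.x₀ + c.A z))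
    rw [h3] at h4
    refine ⟨c.x₀ + c.A z, ?_⟩
    beta_reduce
    rw [hχ _ (h4.trans_lt (by linarith)), one_smul, h3]
  · rintro ⟨⟨x, hx⟩, hb⟩
    refine ⟨?_, hb⟩
    rw [mem_ball_zero_iff] at hb
    beta_reduce at hx
    have h4 := norm_le_Z4 hs x (χ x • c.u x)
    rw [hx] at h4
    rw [hχ _ (h4.trans_lt (by linarith)), one_smul] at hx
    have h5 := (i2 x).2
    have h6 := h2 (Ring.inverse c.A x) (by linarith [norm_nonneg p])
    have h7 : c.F ι κ (Ring.inverse c.A x) = p := by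
      show gr ι κ c.u (c.x₀ + c.A (Ring.inverse c.A x)) = p
      rw [i1, hx₀, zero_add]
      exact hx
    rwa [h7] at h6

theorem sysB_unif : ∃ e₀ : ℝ, 0 < e₀ ∧ ∀ (V : Measure (H × (H →L[ℝ] H))) (ι : E d →ₗᵢ[ℝ] H)
    (κ : E n →ₗᵢ[ℝ] H) (M θ η e₁ : ℝ), Spl ι κ → EV V ι M θ η → η ≤ e₀ → e₁ ≤ e₀ →
    (∀ τ > 0, ∃ (c : Cen d n) (R : ℝ), 1 / 2 ≤ R ∧ R ≤ 2 ∧ Adm ι κ c (2 * e₁) R ∧
      (chart V (c.F ι κ) R).En 0 (1 / 2) ≤ τ) → GraphOn V.fst.support 0 (1 / 100) ι := by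
  obtain ⟨ε₁, hε₁, hm⟩ := montel (d := d) (n := n) (H := H)
  obtain ⟨ε₂, hε₂, hg⟩ := graph_of_centre_unif (d := d) (n := n) (H := H)
  obtain ⟨C, hC, hp⟩ := adm_pre (d := d) (n := n) (H := H)
  have hc := cH_ge (H := H)
  have hω := omega_pos d
  have hq : 0 < 1 / (8 * (cH H * C)) := by positivity
  refine ⟨min (min (ε₁ / 2) (ε₂ / 2)) (min (1 / (8 * (cH H * C))) (omega d / 2)), by positivity,
    fun V ι κ M θ η e₁ hs hV hη he h => ?_⟩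
  simp only [le_min_iff] at hη he
  obtain ⟨-, n1, n2⟩ := hη
  obtain ⟨⟨e1, e2⟩, e3, -⟩ := he
  have hη0 := ev_eps_nonneg hV
  rw [le_div_iff₀ (by positivity)] at n1 e3
  have k1 : cH H * (C * (2 * e₁)) ≤ 1 / 4 := by nlinarith
  have k2 : cH H * η ≤ 1 / 8 := by
    nlinarith [mul_nonneg (mul_nonneg hη0 (by linarith : (0 : ℝ) ≤ cH H)) (by linarith : (0 : ℝ) ≤ C - 1)]
  have hη' : η ≤ 1 / 100 := by nlinarith
  have h' : ∀ j : ℕ, ∃ (c : Cen d n) (R : ℝ), 1 / 2 ≤ R ∧ R ≤ 2 ∧ Adm ι κ c (2 * e₁) R ∧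
      (chart V (c.F ι κ) R).En 0 (1 / 2) ≤ (1 / 2) ^ j := fun j => h _ (by positivity)
  choose c R h1 h2 h3 h4 using h'
  obtain ⟨c₀, φ, hφ, hc₀, hcont, hlim⟩ :=
    hm ι κ (2 * e₁) c hs (by linarith) fun j => (h3 j).mono le_rfl (h1 j)
  have hsub := supp_sub hV hη' (F := fun j => (c (φ j)).F ι κ) (o := fun _ => 0)
    (R := fun j => R (φ j))
    (fun j => hp ι κ _ _ _ hs (h3 _) (by linarith) (by linarith [h2 (φ j)]))
    (fun j => (h3 _).org) (fun j => h1 _)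
    (fun j => (h4 _).trans (pow_le_pow_of_le_one (by norm_num) (by norm_num) (hφ.id_le j)))
    hcont.continuousOn hlim
  have hc₁ : Adm ι κ c₀ (2 * e₁) (1 / 4) := hc₀.mono le_rfl (by norm_num)
  obtain ⟨h0, hsup⟩ := sub_supp (hp ι κ _ _ _ hs hc₁ (by linarith) (by norm_num)) hc₁.org hV
    (by linarith [mul_add (cH H) (C * (2 * e₁)) η]) (by linarith) hsub
  exact hg ι κ c₀ _ _ hs hc₁ (by linarith) h0
    (hsub.trans (image_subset_range _ _)) hsup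

end Pool.Agent.Lib.MP_8daebb_an.AE
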